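import Pool.Agent.Helper35.HG.StB

set_option autoImplicit false

/-!
Project HG (MP_925021_gt), module NJ0: jets of the projected normal vector and of the second
fundamental form in its direction.
-/

namespace Helper44.HG

open Helper35.HG Helper35.HC Helper35.HSF Helper35.MS Helper35.PI Helper35.PI2 Helper32.CL
open scoped ContDiff Manifold Topology ENNReal BigOperators
open MeasureTheory Set Filter

/-- value, gradient and heat of a real function at a point -/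
private structure Jt {n : ℕ} (φ : EE n × ℝ → ℝ) (z : EE n × ℝ) (v : ℝ) (g : Fin n → ℝ) (h : ℝ) :
    Prop where
  c : ContDiffAt ℝ 2 φ z
  v : φ z = v
  g : ∀ k, jg φ z k = g k
  h : jh φ z = h

private theorem Jt.self {n : ℕ} {φ : EE n × ℝ → ℝ} {z : EE n × ℝ} (c : ContDiffAt ℝ 2 φ z) :
    Jt φ z (φ z) (jg φ z) (jh φ z) := ⟨c, rfl, fun _ => rfl, rfl⟩

private theorem Jt.eq {n : ℕ} {φ : EE n × ℝ → ℝ} {z : EE n × ℝ} {v v' : ℝ} {g g' : Fin n → ℝ}
    {h h' : ℝ} (H : Jt φ z v g h) (hv : v = v') (hg : ∀ k, g k = g' k) (hh : h = h') :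
    Jt φ z v' g' h' := ⟨H.c, H.v.trans hv, fun k => (H.g k).trans (hg k), H.h.trans hh⟩

private theorem Jt.congr {n : ℕ} (hJA : StJA) {φ ψ : EE n × ℝ → ℝ} {z : EE n × ℝ} {v : ℝ}
    {g : Fin n → ℝ} {h : ℝ} (H : Jt φ z v g h) (e : ψ =ᶠ[𝓝 z] φ) : Jt ψ z v g h := by
  obtain ⟨e1, -, -, e4⟩ := (hJA n ℝ z).1 ψ φ e
  exact ⟨H.c.congr_of_eventuallyEq e, e.self_of_nhds.trans H.v, fun k => (e1 k).trans (H.g k),
    e4.trans H.h⟩

private theorem Jt.const {n : ℕ} (hJA : StJA) (z : EE n × ℝ) (a : ℝ) :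
    Jt (fun _ => a) z a (fun _ => 0) 0 := by
  obtain ⟨e1, e2⟩ := (hJA n ℝ z).2.1 a
  exact ⟨contDiffAt_const, rfl, e1, e2⟩

private theorem Jt.sub {n : ℕ} (hJA : StJA) {φ ψ : EE n × ℝ → ℝ} {z : EE n × ℝ} {v v' : ℝ}
    {g g' : Fin n → ℝ} {h h' : ℝ} (H : Jt φ z v g h) (H' : Jt ψ z v' g' h') :
    Jt (fun z => φ z - ψ z) z (v - v') (fun k => g k - g' k) (h - h') := by
  obtain ⟨-, -, e3, e4⟩ := (hJA n ℝ z).2.2.1 φ ψ H.c H'.c
  refine ⟨H.c.sub H'.c, ?_, fun k => ?_, ?_⟩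
  · show φ z - ψ z = _
    rw [H.v, H'.v]
  · rw [e3, H.g, H'.g]
  · rw [e4, H.h, H'.h]

private theorem Jt.sum {n m : ℕ} (hJA : StJA) {φ : Fin m → EE n × ℝ → ℝ} {z : EE n × ℝ}
    {v : Fin m → ℝ} {g : Fin m → Fin n → ℝ} {h : Fin m → ℝ}
    (H : ∀ i, Jt (φ i) z (v i) (g i) (h i)) :
    Jt (fun z => ∑ i, φ i z) z (∑ i, v i) (fun k => ∑ i, g i k) (∑ i, h i) := by
  obtain ⟨e1, e2⟩ := (hJA n ℝ z).2.2.2.2 m φ (fun i => (H i).c)
  refine ⟨ContDiffAt.sum fun i _ => (H i).c, ?_, fun k => ?_, ?_⟩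
  · exact Finset.sum_congr rfl fun i _ => (H i).v
  · rw [e1]
    exact Finset.sum_congr rfl fun i _ => (H i).g k
  · rw [e2]
    exact Finset.sum_congr rfl fun i _ => (H i).h

private theorem Jt.mul {n : ℕ} (hJB : StJB) {φ ψ : EE n × ℝ → ℝ} {z : EE n × ℝ} {v v' : ℝ}
    {g g' : Fin n → ℝ} {h h' : ℝ} (H : Jt φ z v g h) (H' : Jt ψ z v' g' h') :
    Jt (fun z => φ z * ψ z) z (v * v') (fun k => g k * v' + v * g' k)
      (h * v' + v * h' - 2 * ∑ k, g k * g' k) := by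
  obtain ⟨e1, e2⟩ := (hJB n 0 z).1 φ ψ H.c H'.c
  refine ⟨H.c.mul H'.c, ?_, fun k => ?_, ?_⟩
  · show φ z * ψ z = _
    rw [H.v, H'.v]
  · rw [e1, H.g, H'.g, H.v, H'.v]
  · rw [e2, H.h, H'.h, H.v, H'.v]
    congr 2
    exact Finset.sum_congr rfl fun k _ => by rw [H.g, H'.g]

private theorem Jt.inn {n N : ℕ} (hJB : StJB) {U W : EE n × ℝ → EE N} {z : EE n × ℝ}
    (cU : ContDiffAt ℝ 2 U z) (cW : ContDiffAt ℝ 2 W z) :
    Jt (fun z => (inner ℝ (U z) (W z) : ℝ)) z (inner ℝ (U z) (W z))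
      (fun k => inner ℝ (jg U z k) (W z) + inner ℝ (U z) (jg W z k))
      (inner ℝ (jh U z) (W z) + inner ℝ (U z) (jh W z)
        - 2 * ∑ k, inner ℝ (jg U z k) (jg W z k)) := by
  obtain ⟨e1, e2⟩ := (hJB n N z).2 U W cU cW
  exact ⟨cU.inner ℝ cW, rfl, e1, e2⟩

private theorem Jt.innc {n N : ℕ} (hJA : StJA) (hJB : StJB) {U : EE n × ℝ → EE N}
    {z : EE n × ℝ} (cU : ContDiffAt ℝ 2 U z) (ν : EE N) :
    Jt (fun z => (inner ℝ (U z) ν : ℝ)) z (inner ℝ (U z) ν)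
      (fun k => inner ℝ (jg U z k) ν) (inner ℝ (jh U z) ν) := by
  obtain ⟨e1, e2⟩ := (hJA n (EE N) z).2.1 ν
  refine (Jt.inn hJB cU (contDiffAt_const (c := ν))).eq rfl (fun k => ?_) ?_
  · rw [e1, inner_zero_right, add_zero]
  · rw [e2, inner_zero_right, add_zero]
    have : ∑ k, (inner ℝ (jg U z k) (jg (fun _ : EE n × ℝ => ν) z k) : ℝ) = 0 :=
      Finset.sum_eq_zero fun k _ => by rw [e1, inner_zero_right]
    rw [this]; ring

private theorem dlt {n : ℕ} (X : Fin n → Fin n → ℝ) :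
    ∑ a, ∑ b, (if a = b then (1 : ℝ) else 0) * X a b = ∑ a, X a a := by
  refine Finset.sum_congr rfl fun a _ => ?_
  rw [Finset.sum_eq_single a]
  · simp
  · intro b _ hb
    rw [if_neg (Ne.symm hb), zero_mul]
  · intro h
    exact absurd (Finset.mem_univ a) h

private theorem two_le_inf : (2 : WithTop ℕ∞) ≤ ((⊤ : ℕ∞) : WithTop ℕ∞) := by
  have h : ((2 : ℕ∞) : WithTop ℕ∞) ≤ ((⊤ : ℕ∞) : WithTop ℕ∞) := WithTop.coe_le_coe.2 le_top
  exact h

theorem hNJ0 (hG1 : StG1) (hG2 : StG2) (hG3 : StG3) (hG4 : StG4) (hG5 : StG5) (hSM : Helper35.PI.StSM)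
    (hJA : StJA) (hJB : StJB) : StNJ0 := by
  intro n N x₀ L u t₀ hu hS ν hν A T hA hT
  set z₀ : EE n × ℝ := (0, t₀) with hz₀
  have g2 := hG2 n N x₀ L u t₀ hu
  obtain ⟨g3a, g3b⟩ := hG3 n N x₀ L u t₀ hu
  have g5 := hG5 n N x₀ L u t₀ hu
  have g4 := hG4 n N x₀ L u t₀ hu
  obtain ⟨symA, symT, -, -⟩ := hG1 n N x₀ L u t₀ hu
  rw [← hA] at symA
  rw [← hT] at symT
  have h24 : (2 : WithTop ℕ∞) ≤ 4 := by norm_num
  have cu : ContDiffAt ℝ 2 u z₀ := hu.smooth.of_le two_le_inf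
  have c1 : ∀ a, ContDiffAt ℝ 2 (fun z => jg u z a) z₀ := fun a => (g3a a).1.of_le h24
  have c2 : ∀ i j, ContDiffAt ℝ 2 (fun z => jgg u z i j) z₀ := fun i j => (g3b i j).of_le h24
  have rpos : 0 < rr n t₀ := hS.self_of_nhds.1
  -- jets of the pieces
  have Jp : ∀ a, Jt (fun z => (inner ℝ (jg u z a) ν : ℝ)) z₀ 0 (fun k => kn A ν k a) 0 := by
    intro a
    refine (Jt.innc hJA hJB (c1 a) ν).eq ?_ (fun k => ?_) ?_
    · rw [hu.du0 a, inner_zero_left]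
    · show (inner ℝ (jgg u z₀ k a) ν : ℝ) = kn A ν k a
      rw [hA]; rfl
    · rw [(g3a a).2, inner_zero_left]
  have JG : ∀ a b, Jt (GIf x₀ L u a b) z₀ (if a = b then 1 else 0) (fun _ => 0)
      (2 * ∑ k, inner ℝ (jgg u (0, t₀) a k) (jgg u (0, t₀) b k)) := fun a b =>
    ⟨(g5 a b).1.of_le h24, (g5 a b).2.1, (g5 a b).2.2.1, (g5 a b).2.2.2⟩
  have Jw : ∀ i j k, Jt (fun z => (inner ℝ (jgg u z i j) (jg u z k) : ℝ)) z₀ 0
      (fun m => inner ℝ (A i j) (A m k))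
      (jh (fun z => (inner ℝ (jgg u z i j) (jg u z k) : ℝ)) z₀) := by
    intro i j k
    have h0 : (inner ℝ (jgg u z₀ i j) (jg u z₀ k) : ℝ) = 0 := by
      rw [hu.du0 k, inner_zero_right]
    refine ⟨(c2 i j).inner ℝ (c1 k), h0, fun m => ?_, rfl⟩
    rw [(Jt.inn hJB (c2 i j) (c1 k)).g m]
    rw [hu.du0 k, inner_zero_right, zero_add, hA]
    rfl
  have hjhu : jh u z₀ = 0 := by
    have h1 := hu.pde.self_of_nhds
    show jt u z₀ - ∑ k, jgg u z₀ k k = 0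
    rw [show jt u z₀ = _ from h1, sub_eq_zero]
    refine Finset.sum_congr rfl fun a _ => ?_
    rw [Finset.sum_eq_single a]
    · rw [show (gram (grf x₀ L u z₀.2) z₀.1)⁻¹ a a = GIf x₀ L u a a z₀ from rfl, (JG a a).v,
        if_pos rfl, one_smul]
    · intro b _ hb
      rw [show (gram (grf x₀ L u z₀.2) z₀.1)⁻¹ a b = GIf x₀ L u a b z₀ from rfl, (JG a b).v,
        if_neg (Ne.symm hb), zero_smul]
    · intro h
      exact absurd (Finset.mem_univ a) h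
  have Jq : Jt (fun z => (inner ℝ (u z) ν : ℝ)) z₀ 0 (fun _ => 0) 0 := by
    refine (Jt.innc hJA hJB cu ν).eq ?_ (fun k => ?_) ?_
    · rw [hu.u0, inner_zero_left]
    · rw [hu.du0 k, inner_zero_left]
    · rw [hjhu, inner_zero_left]
  have cr : ContDiffAt ℝ 2 (fun z : EE n × ℝ => (rr n z.2)⁻¹) z₀ := by
    have h1 : ContDiffAt ℝ 2 (fun z : EE n × ℝ => rr n z.2) z₀ := by
      unfold rr
      exact contDiffAt_const.sub (contDiffAt_const.mul contDiffAt_snd)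
    exact h1.inv rpos.ne'
  -- a product with the factor `⟨u,ν⟩`
  have Jqr : ∀ r : EE n × ℝ → ℝ, ContDiffAt ℝ 2 r z₀ →
      Jt (fun z => (inner ℝ (u z) ν : ℝ) * r z) z₀ 0 (fun _ => 0) 0 := by
    intro r hr
    refine (Jt.mul hJB Jq (Jt.self hr)).eq ?_ (fun k => ?_) ?_
    · ring
    · ring
    · simp
  -- the vector `ν`
  have nuL : ∀ v, (inner ℝ (L v) ν : ℝ) = 0 := fun v => by
    rw [real_inner_comm]; exact hν.nL v
  have nux : (inner ℝ x₀ ν : ℝ) = 0 := by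
    rw [real_inner_comm]; exact hν.nx
  have ngr : ∀ z : EE n × ℝ, (inner ℝ ν (grf x₀ L u z.2 z.1) : ℝ) = inner ℝ (u z) ν := by
    intro z
    show (inner ℝ ν (x₀ + L z.1 + u (z.1, z.2)) : ℝ) = _
    rw [inner_add_right, inner_add_right, hν.nx, hν.nL, zero_add, zero_add, real_inner_comm]
  have cq : ContDiffAt ℝ 2 (fun z : EE n × ℝ => (inner ℝ (u z) ν : ℝ)) z₀ := Jq.c
  have JN : Jt (NfG x₀ L u ν) z₀ 1 (fun _ => 0) (2 * fip (kn A ν) (kn A ν)) := by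
    have e : NfG x₀ L u ν =ᶠ[𝓝 z₀] fun z =>
        (1 - ∑ a, ∑ b, GIf x₀ L u a b z
          * ((inner ℝ (jg u z a) ν : ℝ) * (inner ℝ (jg u z b) ν : ℝ)))
          - (inner ℝ (u z) ν : ℝ) * ((inner ℝ (u z) ν : ℝ) * (rr n z.2)⁻¹) := by
      filter_upwards [g2] with z hz
      have h1 : ∀ a, (inner ℝ ν (dv1 (grf x₀ L u z.2) z.1 a) : ℝ) = inner ℝ (jg u z a) ν := by
        intro a
        rw [hz.1 a, inner_add_right, hν.nL, zero_add, real_inner_comm]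
      unfold NfG
      simp only [h1, ngr]
      ring
    refine Jt.congr hJA ?_ e
    refine (Jt.sub hJA (Jt.sub hJA (Jt.const hJA z₀ 1) (Jt.sum hJA fun a => Jt.sum hJA fun b =>
      Jt.mul hJB (JG a b) (Jt.mul hJB (Jp a) (Jp b)))) (Jqr _ (cq.mul cr))).eq ?_ (fun k => ?_) ?_
    · simp
    · simp
    · have h1 : ∀ a b : Fin n,
          (2 * ∑ k, inner ℝ (jgg u (0, t₀) a k) (jgg u (0, t₀) b k)) * ((0 : ℝ) * 0)
            + (if a = b then (1 : ℝ) else 0)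
              * (0 * 0 + 0 * 0 - 2 * ∑ k, kn A ν k a * kn A ν k b)
            - 2 * ∑ k, (0 : ℝ) * (kn A ν k a * 0 + 0 * kn A ν k b)
          = (if a = b then (1 : ℝ) else 0) * (-2 * ∑ k, kn A ν k a * kn A ν k b) := by
        intro a b
        simp
      rw [Finset.sum_congr rfl fun a _ => Finset.sum_congr rfl fun b _ => h1 a b,
        dlt (fun a b => -2 * ∑ k, kn A ν k a * kn A ν k b), ← Finset.mul_sum]
      unfold fip
      rw [Finset.sum_comm]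
      ring
  have clg : ContDiffAt ℝ 2 (fun z : EE n × ℝ => grf x₀ L u z.2 z.1) z₀ := by
    have h1 : ContDiffAt ℝ 2 (fun z : EE n × ℝ => x₀ + L z.1 + u z) z₀ :=
      (contDiffAt_const.add (L.toContinuousLinearMap.contDiff.contDiffAt.comp z₀
        contDiffAt_fst)).add cu
    exact h1
  have csf : ∀ i j, ContDiffAt ℝ 2 (fun z : EE n × ℝ => sff (grf x₀ L u z.2) z.1 i j) z₀ := by
    intro i j
    have h1 : ContDiffAt ℝ ∞ (fun z : EE n × ℝ => x₀ + L z.1 + u z) z₀ :=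
      (contDiffAt_const.add (L.toContinuousLinearMap.contDiff.contDiffAt.comp z₀
        contDiffAt_fst)).add hu.smooth
    have h2 := hSM n N (fun z : EE n × ℝ => x₀ + L z.1 + u z) z₀ h1
      g2.self_of_nhds.2.2.2.2
    exact (h2.2.2.2.2.2.2.1 i j).of_le two_le_inf
  have JK : ∀ i j, Jt (kfG x₀ L u ν i j) z₀ (kn A ν i j) (fun k => inner ℝ (T i j k) ν)
      (-2 * (∑ a, ∑ b, inner ℝ (A a i) (A b j) * kn A ν a b)
          + 2 * (∑ a, ∑ b, inner ℝ (A i j) (A a b) * kn A ν a b)) := by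
    intro i j
    have e : kfG x₀ L u ν i j =ᶠ[𝓝 z₀] fun z =>
        ((inner ℝ (jgg u z i j) ν : ℝ) - ∑ k, ∑ l, GIf x₀ L u k l z
          * ((inner ℝ (jgg u z i j) (jg u z k) : ℝ) * (inner ℝ (jg u z l) ν : ℝ)))
          - (inner ℝ (u z) ν : ℝ) * ((inner ℝ (sff (grf x₀ L u z.2) z.1 i j)
            (grf x₀ L u z.2 z.1) : ℝ) * (rr n z.2)⁻¹) := by
      filter_upwards [g2] with z hz
      have h1 : ∀ a, (inner ℝ (dv1 (grf x₀ L u z.2) z.1 a) ν : ℝ) = inner ℝ (jg u z a) ν := by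
        intro a
        rw [hz.1 a, inner_add_left, nuL, zero_add]
      have h2 : ∀ a, (inner ℝ (jgg u z i j) (dv1 (grf x₀ L u z.2) z.1 a) : ℝ)
          = inner ℝ (jgg u z i j) (jg u z a) := by
        intro a
        rw [hz.1 a, inner_add_right, (hz.2.2.2.1 i j (ee a)).2, zero_add]
      have h3 : (inner ℝ (sff (grf x₀ L u z.2) z.1 i j) ν : ℝ)
          = inner ℝ (jgg u z i j) ν - ∑ k, ∑ l, GIf x₀ L u k l z
            * ((inner ℝ (jgg u z i j) (jg u z k) : ℝ) * (inner ℝ (jg u z l) ν : ℝ)) := by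
        unfold sff nrm
        rw [hz.2.1 i j, inner_sub_left, sum_inner]
        congr 1
        refine Finset.sum_congr rfl fun k _ => ?_
        rw [sum_inner]
        refine Finset.sum_congr rfl fun l _ => ?_
        rw [real_inner_smul_left, h1, h2]
        show GIf x₀ L u k l z * _ * _ = _
        ring
      unfold kfG
      rw [h3, ngr]
      ring
    refine Jt.congr hJA ?_ e
    refine (Jt.sub hJA (Jt.sub hJA (Jt.innc hJA hJB (c2 i j) ν)
      (Jt.sum hJA fun k => Jt.sum hJA fun l => Jt.mul hJB (JG k l)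
        (Jt.mul hJB (Jw i j k) (Jp l)))) (Jqr _ (((csf i j).inner ℝ clg).mul cr))).eq
        ?_ (fun k => ?_) ?_
    · simp [Helper35.HG.kn, hA, hz₀]
    · have h1 : jg (fun z => jgg u z i j) z₀ k = T i j k := by
        show jggg u z₀ k i j = T i j k
        rw [← hT, symT.1 k i j, symT.2 i k j]
      rw [h1]
      simp
    · have h1 : ∀ a b : Fin n,
          (2 * ∑ k, inner ℝ (jgg u (0, t₀) a k) (jgg u (0, t₀) b k)) * ((0 : ℝ) * 0)
            + (if a = b then (1 : ℝ) else 0)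
              * (jh (fun z => (inner ℝ (jgg u z i j) (jg u z a) : ℝ)) z₀ * 0 + 0 * 0
                - 2 * ∑ k, (inner ℝ (A i j) (A k a) : ℝ) * kn A ν k b)
            - 2 * ∑ k, (0 : ℝ) * ((inner ℝ (A i j) (A k a) : ℝ) * 0 + 0 * kn A ν k b)
          = (if a = b then (1 : ℝ) else 0)
            * (-2 * ∑ k, (inner ℝ (A i j) (A k a) : ℝ) * kn A ν k b) := by
        intro a b
        simp
      rw [Finset.sum_congr rfl fun a _ => Finset.sum_congr rfl fun b _ => h1 a b,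
        dlt (fun a b => -2 * ∑ k, (inner ℝ (A i j) (A k a) : ℝ) * kn A ν k b),
        ← Finset.mul_sum, Finset.sum_comm, g4 i j, real_inner_smul_left, sum_inner]
      have h2 : ∑ a, (inner ℝ (∑ b, (inner ℝ (jgg u (0, t₀) a i) (jgg u (0, t₀) b j) : ℝ)
          • jgg u (0, t₀) a b) ν : ℝ)
          = ∑ a, ∑ b, inner ℝ (A a i) (A b j) * kn A ν a b := by
        refine Finset.sum_congr rfl fun a _ => ?_
        rw [sum_inner]
        refine Finset.sum_congr rfl fun b _ => ?_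
        rw [real_inner_smul_left, hA]
        rfl
      rw [h2]
      ring
  exact ⟨JN.c, JN.v, JN.g, JN.h, fun i j => ⟨(JK i j).c, (JK i j).v, (JK i j).g, (JK i j).h⟩⟩

end Helper44.HG
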