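import Pool.Agent.Helper80.HG.St

/-!
# Project HG (MP_1bacb5_al), module SQ: the sequence of the conjugates
-/

set_option autoImplicit false

namespace Pool.Agent.Helper44.HG

open Pool.Agent.Helper80.HG Filter Topology Asymptotics
open scoped commutatorElement

theorem trans_tendsto {H : Set (ℝ → ℝ)} {Γ : Type} [Group Γ] {θ : Γ → ℝ → ℝ} (hR : RB H θ) (g : Γ)
    {F : ℝ → ℝ} {l : Filter ℝ} (h : Tendsto (fun z => F (θ g z)) atTop l) : Tendsto F atTop l := by
  intro s hs
  exact hR.trans g (fun w => F w ∈ s) (h hs)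

theorem hSQ : StSQ := by
  intro hPC H hB Γ _ θ hS f g L0 L1 h0 h1 hd
  have hex : ∀ n : ℕ, ∃ L : ℝ → ℝ, Ps H θ (g ^ n * f * (g ^ n)⁻¹) L ∧
      Tendsto (fun z => L (θ (g ^ n) z) - L0 z) atTop (𝓝 0) :=
    fun n => hPC H hB Γ θ hS (g ^ n) f L0 h0
  choose L hL hLt using hex
  have e0 : ∀ᶠ x in atTop, L 0 x = L0 x := by
    have h2 := hL 0
    rw [pow_zero, one_mul, inv_one, mul_one] at h2
    exact hS.psu f (L 0) L0 h2 h0
  have e1 : ∀ᶠ x in atTop, L 1 x = L1 x := by
    have h2 := hL 1
    rw [pow_one] at h2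
    exact hS.psu (g * f * g⁻¹) (L 1) L1 h2 h1
  have E1 : ∀ n : ℕ, Tendsto (fun z => L (n + 1) (θ g z) - L n z) atTop (𝓝 0) := by
    intro n
    obtain ⟨L', hL', ht⟩ := hPC H hB Γ θ hS g (g ^ n * f * (g ^ n)⁻¹) (L n) (hL n)
    have h3 : g * (g ^ n * f * (g ^ n)⁻¹) * g⁻¹ = g ^ (n + 1) * f * (g ^ (n + 1))⁻¹ := by
      rw [pow_succ']
      group
    rw [h3] at hL'
    have h4 := hS.psu _ L' (L (n + 1)) hL' (hL (n + 1))
    have h5 : ∀ᶠ z in atTop, L' (θ g z) = L (n + 1) (θ g z) := (hS.top g).eventually h4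
    refine ht.congr' ?_
    filter_upwards [h5] with z hz
    rw [hz]
  have E2 : ∀ n : ℕ, Tendsto (fun x => L n x - L (n + 1) x) atTop atTop := by
    intro n
    induction n with
    | zero =>
      refine hd.congr' ?_
      filter_upwards [e0, e1] with x h2 h3
      rw [h2, zero_add, h3]
    | succ n ih =>
      apply trans_tendsto hS.toRB g (F := fun x => L (n + 1) x - L (n + 1 + 1) x)
      have h2 : Tendsto (fun z => (L (n + 1) (θ g z) - L n z) - (L (n + 1 + 1) (θ g z) - L (n + 1) z))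
          atTop (𝓝 (0 - 0)) := (E1 n).sub (E1 (n + 1))
      have h3 := h2.add_atTop ih
      refine h3.congr ?_
      intro z
      ring
  have E3 : ∀ i j : ℕ, i < j → Tendsto (fun x => L i x - L j x) atTop atTop := by
    intro i j hij
    induction j with
    | zero => omega
    | succ j ih =>
      rcases Nat.lt_succ_iff_lt_or_eq.1 hij with h2 | h2
      · have h3 := (ih h2).atTop_add_atTop (E2 j)
        refine h3.congr ?_
        intro x
        ring
      · subst h2
        exact E2 i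
  have hpos : ∀ n : ℕ, ∀ᶠ x in atTop, 0 < L n x := fun n => (hL n).2.1.eventually_gt_atTop 0
  have hq : (fun x => L 1 x / L 0 x) ∈ H := hB.div (L 1) (hL 1).1 (L 0) (hL 0).1
  have hq0 : ∀ᶠ x in atTop, 0 ≤ L 1 x / L 0 x := by
    filter_upwards [hpos 0, hpos 1] with x h2 h3
    positivity
  have hq1 : ∀ᶠ x in atTop, L 1 x / L 0 x ≤ 1 := by
    filter_upwards [hpos 0, (E2 0).eventually_ge_atTop 0] with x h2 h3
    rw [div_le_one h2]
    simp only [zero_add] at h3
    linarith
  obtain ⟨c, hc⟩ : ∃ c : ℝ, Tendsto (fun x => L 1 x / L 0 x) atTop (𝓝 c) := by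
    rcases hB.lim _ hq with h2 | h2 | h2
    · exact h2
    · exfalso
      obtain ⟨x, h3, h4⟩ := (hq1.and (h2.eventually_ge_atTop 2)).exists
      linarith
    · exfalso
      obtain ⟨x, h3, h4⟩ := (hq0.and (h2.eventually_le_atBot (-1))).exists
      linarith
  have hc0 : 0 ≤ c := ge_of_tendsto hc hq0
  have hc1 : c ≤ 1 := le_of_tendsto hc hq1
  have E4 : ∀ n : ℕ, Tendsto (fun x => L (n + 1) x / L n x) atTop (𝓝 c) := by
    intro n
    induction n with
    | zero => exact hc
    | succ n ih =>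
      apply trans_tendsto hS.toRB g (F := fun x => L (n + 1 + 1) x / L (n + 1) x)
      have hinv : Tendsto (fun z => (L n z)⁻¹) atTop (𝓝 0) :=
        tendsto_inv_atTop_zero.comp (hL n).2.1
      have h2 : Tendsto (fun z => L (n + 1) z / L n z + (L (n + 1 + 1) (θ g z) - L (n + 1) z) * (L n z)⁻¹)
          atTop (𝓝 (c + 0 * 0)) := ih.add ((E1 (n + 1)).mul hinv)
      have h3 : Tendsto (fun z => 1 + (L (n + 1) (θ g z) - L n z) * (L n z)⁻¹)
          atTop (𝓝 (1 + 0 * 0)) := tendsto_const_nhds.add ((E1 n).mul hinv)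
      have h4 := h2.div h3 (by norm_num)
      have h5 : (c + 0 * 0) / (1 + 0 * 0) = c := by ring
      rw [h5] at h4
      refine h4.congr' ?_
      filter_upwards [hpos n] with z hz
      have h6 : L n z ≠ 0 := hz.ne'
      simp only [Pi.div_apply]
      have h7 : L (n + 1) z / L n z + (L (n + 1 + 1) (θ g z) - L (n + 1) z) * (L n z)⁻¹ =
          L (n + 1 + 1) (θ g z) / L n z := by
        field_simp
        ring
      have h8 : 1 + (L (n + 1) (θ g z) - L n z) * (L n z)⁻¹ = L (n + 1) (θ g z) / L n z := by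
        field_simp
        ring
      rw [h7, h8, div_div_div_cancel_right₀ h6]
  refine ⟨L, c, hc0, hc1, hL, ?_, E3, ?_⟩
  · intro n
    refine (hLt n).congr' ?_
    filter_upwards [e0] with z hz
    rw [hz]
  · intro n
    induction n with
    | zero =>
      rw [pow_zero]
      refine tendsto_const_nhds.congr' ?_
      filter_upwards [hpos 0] with x hx
      rw [div_self hx.ne']
    | succ n ih =>
      have h2 := (E4 n).mul ih
      rw [pow_succ']
      refine h2.congr' ?_
      filter_upwards [hpos n] with x hx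
      rw [div_mul_div_cancel₀ hx.ne']

end Pool.Agent.Helper44.HG
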